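import Pool.Agent.Helper58.Edge.Defs
import Pool.Agent.Helper58.Edge.Main

namespace Pool.Agent.Results.MP_e6fd84_al.RegPowers

open MvPolynomial Pool.Agent.Helper58.Edge

/-- If `reg (I : x) ≤ r` for every vertex `x` of the finite simple graph `G` with edge ideal `I`,
then `reg I ^ q ≤ 2 * q + r - 1` for every `q ≥ 1`. -/
theorem result {k : Type*} [Field k] {n : ℕ} (G : SimpleGraph (Fin n)) (r : ℤ)
    (h : ∀ x : Fin n, RegLE ((edgeIdeal k G).colon {(X x : MvPolynomial (Fin n) k)}) r)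
    (q : ℕ) (hq : 1 ≤ q) :
    RegLE (edgeIdeal k G ^ q) (2 * (q : ℤ) + r - 1) :=
  reg_pow_of_colon h hq

end Pool.Agent.Results.MP_e6fd84_al.RegPowers
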